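import Mathlib
import Pool.Agent.Helper629.CrossCutB

/-!
In ZFC the power set of EVERY infinite set has a nontrivial cross-cut.

Construction.  Well-order `X` so that its order type is at least `ω ^ 2`.  Call a set *big* if its
order type is at least `ω ^ 2`.  A set `y` that is not big is a finite union of sequences of type
`ω` (plus a finite set), converging to limit points `μ_1 < ... < μ_k`; fix once and for all a
ladder (an increasing cofinal sequence) for every initial segment of countable cofinality, and let
the time `t_y ξ` of a point `ξ ∈ y` be the number of rungs, of the ladder of the next limit point of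
`y` above `ξ`, that are passed up to `ξ`.  The functions `t_y` are finite-to-one and coherent
(`t_z = t_y` on `z` up to finitely many points if `z ⊆ y`).  With `N y n` the number of points of
`y` of time at most `n`, the family of all `z` that are not big and satisfy
`limsup (N z n - n) = 0` is a cross-cut all of whose members are infinite with infinite complement.
-/

set_option autoImplicit false
set_option linter.unusedSectionVars false

open Set Filter

namespace Pool.Agent.Results.MP_73a625_co.AllInfiniteSets

open Pool.Agent.Helper629.CCut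

universe u

/-- A *cross-cut* of a partially ordered set `P`: a maximal antichain `C` such that whenever
`x < x' ∈ C`, `y > y' ∈ C` and `x ≤ y`, some `z ∈ C` satisfies `x ≤ z ≤ y`. -/
def IsCrossCut {P : Type u} [PartialOrder P] (C : Set P) : Prop :=
  IsMaxAntichain (· ≤ ·) C ∧
    ∀ x x' y y' : P, x < x' → x' ∈ C → y' < y → y' ∈ C → x ≤ y → ∃ z ∈ C, x ≤ z ∧ z ≤ y

/-- The dual of a family of subsets: the family of complements of its members. -/
def dual {X : Type u} (C : Set (Set X)) : Set (Set X) := {B | ∃ A ∈ C, B = Aᶜ}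

/-- `C` is *trivial*: for some finite `k`, `C` or its dual is the family of all
`k`-element subsets. -/
def IsTrivial {X : Type u} (C : Set (Set X)) : Prop :=
  ∃ k : ℕ, C = {A | A.encard = (k : ℕ∞)} ∨ dual C = {A | A.encard = (k : ℕ∞)}

section

variable {X : Type u} [LinearOrder X]

/-- the cross-cut. -/
def CC (X : Type u) [LinearOrder X] : Set (Set X) :=
  {z | ¬ Big z ∧ (∀ᶠ n in atTop, N z n ≤ n) ∧ ∃ᶠ n in atTop, N z n = n}

/-- sets below the cross-cut. -/
def Low (z : Set X) : Prop := ¬ Big z ∧ ∀ᶠ n in atTop, N z n < n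

/-- sets above the cross-cut. -/
def High (z : Set X) : Prop := Big z ∨ ∃ᶠ n in atTop, n < N z n

theorem trichotomy (z : Set X) : Low z ∨ z ∈ CC X ∨ High z := by
  by_cases hb : Big z
  · exact Or.inr (Or.inr (Or.inl hb))
  by_cases h1 : ∃ᶠ n in atTop, n < N z n
  · exact Or.inr (Or.inr (Or.inr h1))
  rw [not_frequently] at h1
  by_cases h2 : ∃ᶠ n in atTop, N z n = n
  · refine Or.inr (Or.inl ⟨hb, h1.mono fun n hn => not_lt.1 hn, h2⟩)
  · rw [not_frequently] at h2
    refine Or.inl ⟨hb, ?_⟩
    filter_upwards [h1, h2] with n h3 h4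
    omega

variable [WellFoundedLT X]

theorem low_of_lt {x x' : Set X} (h : x < x') (hx' : x' ∈ CC X) : Low x := by
  refine ⟨fun hb => hx'.1 (hb.mono h.le), ?_⟩
  filter_upwards [N_lt h hx'.1, hx'.2.1] with n h1 h2
  omega

theorem high_of_lt {y y' : Set X} (h : y' < y) (hy' : y' ∈ CC X) : High y := by
  by_cases hb : Big y
  · exact Or.inl hb
  · right
    refine (hy'.2.2.and_eventually (N_lt h hb)).mono ?_
    rintro n ⟨h1, h2⟩
    omega

theorem not_low_high {z : Set X} (h1 : Low z) (h2 : High z) : False := by
  rcases h2 with h2 | h2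
  · exact h1.1 h2
  · obtain ⟨n, h3, h4⟩ := (h2.and_eventually h1.2).exists
    omega

theorem antichain_CC : IsAntichain (· ≤ ·) (CC X) := by
  intro x hx y hy hne hle
  have hlt : x < y := lt_of_le_of_ne hle hne
  obtain ⟨n, h3, h4⟩ := (hx.2.2.and_eventually (low_of_lt hlt hy).2).exists
  omega

theorem interp_fin {x y : Set X} (hxy : x ⊆ y) (hx : Low x) (hy : ¬ Big y)
    (hy2 : ∃ᶠ n in atTop, n < N y n) : ∃ z ∈ CC X, x ⊆ z ∧ z ⊆ y := by
  obtain ⟨z, hxz, hzy, h1, h2⟩ := interp (tm y) x y hxy (finite_tm hy)
    (by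
      filter_upwards [N_eq hxy hy, hx.2] with n h3 h4
      omega) hy2
  refine ⟨z, ⟨fun hb => hy (hb.mono hzy), ?_, ?_⟩, hxz, hzy⟩
  · filter_upwards [N_eq hzy hy, h1] with n h3 h4
    omega
  · refine (h2.and_eventually (N_eq hzy hy)).mono ?_
    rintro n ⟨h3, h4⟩
    omega

theorem interpolate {x y : Set X} (hxy : x ⊆ y) (hx : Low x) (hy : High y) :
    ∃ z ∈ CC X, x ⊆ z ∧ z ⊆ y := by
  by_cases hb : Big y
  · obtain ⟨d, hdy, hnb, hd⟩ := diag hb
    have h1 : ¬ Big (x ∪ d) := not_big_union hx.1 hnb
    obtain ⟨z, hz, h2, h3⟩ := interp_fin (subset_union_left : x ⊆ x ∪ d) hx h1 (by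
      refine (hd.and_eventually (N_le subset_union_right h1)).mono ?_
      rintro n ⟨h3, h4⟩
      omega)
    exact ⟨z, hz, h2, h3.trans (union_subset hxy hdy)⟩
  · rcases hy with hy | hy
    · exact absurd hy hb
    · exact interp_fin hxy hx hb hy

theorem low_empty : Low (∅ : Set X) := by
  constructor
  · rintro ⟨f, hf, h⟩
    apply h 0
    simp
  · filter_upwards [eventually_gt_atTop 0] with n hn
    unfold N cnt
    simpa using hn

theorem isCrossCut_CC (hbig : Big (univ : Set X)) : IsCrossCut (CC X) := by
  refine ⟨⟨antichain_CC, ?_⟩, ?_⟩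
  · intro t ht hsub
    apply Subset.antisymm hsub
    intro z hz
    rcases trichotomy z with h | h | h
    · obtain ⟨c, hc, h1, _⟩ := interpolate (subset_univ z) h (Or.inl hbig)
      by_contra hcon
      have hne : z ≠ c := fun h2 => hcon (h2 ▸ hc)
      exact ht hz (hsub hc) hne h1
    · exact h
    · obtain ⟨c, hc, _, h1⟩ := interpolate (empty_subset z) low_empty h
      by_contra hcon
      have hne : c ≠ z := fun h2 => hcon (h2 ▸ hc)
      exact ht (hsub hc) hz hne h1
  · intro x x' y y' hx hx' hy hy' hxy
    exact interpolate hxy (low_of_lt hx hx') (high_of_lt hy hy')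

theorem low_of_finite {z : Set X} (hz : z.Finite) : Low z := by
  constructor
  · rintro ⟨f, hf, h⟩
    exact h 0 (hz.subset inter_subset_left)
  · filter_upwards [eventually_gt_atTop z.ncard] with n hn
    unfold N cnt
    exact lt_of_le_of_lt (ncard_le_ncard (fun ξ h => h.1) hz) hn

theorem high_of_compl_finite (hbig : Big (univ : Set X)) {z : Set X} (hz : zᶜ.Finite) :
    High z := by
  left
  by_contra hcon
  have : ¬ Big (z ∪ zᶜ) := not_big_union hcon (low_of_finite hz).1
  rw [union_compl_self] at this
  exact this hbig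

theorem exists_mem (hbig : Big (univ : Set X)) : ∃ z, z ∈ CC X := by
  obtain ⟨z, hz, _⟩ := interpolate (empty_subset (univ : Set X)) low_empty (Or.inl hbig)
  exact ⟨z, hz⟩

theorem infinite_of_mem {z : Set X} (hz : z ∈ CC X) : z.Infinite := by
  intro hfin
  obtain ⟨n, h3, h4⟩ := (hz.2.2.and_eventually (low_of_finite hfin).2).exists
  omega

theorem compl_infinite_of_mem (hbig : Big (univ : Set X)) {z : Set X} (hz : z ∈ CC X) :
    zᶜ.Infinite := by
  intro hfin
  rcases high_of_compl_finite hbig hfin with h | h
  · exact hz.1 h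
  · obtain ⟨n, h3, h4⟩ := (h.and_eventually hz.2.1).exists
    omega

end

theorem not_trivial_of {X : Type u} {C : Set (Set X)} {z : Set X} (hz : z ∈ C) (h1 : z.Infinite)
    (h2 : zᶜ.Infinite) : ¬ IsTrivial C := by
  rintro ⟨k, h | h⟩
  · rw [h] at hz
    exact h1 (finite_of_encard_eq_coe hz)
  · have : zᶜ ∈ dual C := ⟨z, hz, rfl⟩
    rw [h] at this
    exact h2 (finite_of_encard_eq_coe this)

/-- every infinite type carries a well-order for which `univ` is big. -/
theorem exists_order (X : Type u) [Infinite X] :
    ∃ _ : LinearOrder X, WellFoundedLT X ∧ Big (univ : Set X) := by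
  classical
  -- an infinite well-ordered set of the same cardinality
  let Y : Type u := (Cardinal.mk X).ord.ToType
  have hY : Cardinal.mk Y = Cardinal.mk X := by
    simp [Y]
  have hYinf : Infinite Y := by
    rw [Cardinal.infinite_iff, hY]
    exact Cardinal.aleph0_le_mk X
  -- X ≃ Y × ℕ
  have hcard : Cardinal.mk X = Cardinal.mk (Y × ℕ) := by
    rw [Cardinal.mk_prod, hY]
    simp
  obtain ⟨e⟩ := Cardinal.eq.1 hcard
  obtain ⟨a, ha, _⟩ := exists_seq (infinite_univ (α := Y))
  let F : X → Y ×ₗ ℕ := fun x => toLex (e x)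
  have hF : Function.Injective F := fun x y h => e.injective (toLex.injective h)
  let o : LinearOrder X := LinearOrder.lift' F hF
  have hlt : ∀ x y : X, x < y ↔ F x < F y := fun x y => Iff.rfl
  have hle : ∀ x y : X, x ≤ y ↔ F x ≤ F y := fun x y => Iff.rfl
  refine ⟨o, ⟨?_⟩, ?_⟩
  · have hwf1 : WellFounded (fun p q : Y ×ₗ ℕ => p < q) := wellFounded_lt
    exact InvImage.wf F hwf1
  · refine ⟨fun i => e.symm (a i, 0), ?_, ?_⟩
    · intro i j hij
      rw [hlt]
      simp only [F, Equiv.apply_symm_apply]
      rw [Prod.Lex.toLex_lt_toLex]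
      exact Or.inl (ha hij)
    · intro i
      have hinj : Function.Injective (fun n : ℕ => e.symm (a i, n)) := by
        intro m n hmn
        have := e.symm.injective hmn
        exact (Prod.mk.inj this).2
      apply (infinite_range_of_injective hinj).mono
      rintro _ ⟨n, rfl⟩
      refine ⟨mem_univ _, ?_, ?_⟩
      · rw [hle]
        simp only [F, Equiv.apply_symm_apply]
        rw [Prod.Lex.toLex_le_toLex]
        exact Or.inr ⟨rfl, Nat.zero_le _⟩
      · rw [hle]
        simp only [F, Equiv.apply_symm_apply]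
        rw [Prod.Lex.toLex_le_toLex]
        exact Or.inl (ha (Nat.lt_succ_self i))

/-- In ZFC: for every infinite set `X`, the power set of `X` has a nontrivial cross-cut; moreover
there is one all of whose members are infinite with infinite complement. -/
theorem result (X : Type u) [Infinite X] :
    ∃ C : Set (Set X), IsCrossCut C ∧ ¬ IsTrivial C ∧ ∀ A ∈ C, A.Infinite ∧ Aᶜ.Infinite := by
  obtain ⟨o, hwf, hbig⟩ := exists_order X
  obtain ⟨z, hz⟩ := exists_mem hbig
  exact ⟨CC X, isCrossCut_CC hbig, not_trivial_of hz (infinite_of_mem hz)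
    (compl_infinite_of_mem hbig hz),
    fun z hz => ⟨infinite_of_mem hz, compl_infinite_of_mem hbig hz⟩⟩

end Pool.Agent.Results.MP_73a625_co.AllInfiniteSets
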