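import Mathlib
import Pool.Agent.Helper747.CrossCutB

set_option autoImplicit false

namespace Pool.Agent.Results.MP_73a625_co.CountableCase

open Pool.Agent.Helper747.CC

/-- In ZFC: the power set of every countably infinite set has a nontrivial cross-cut. -/
theorem result (X : Type*) [Countable X] [Infinite X] :
    ∃ C : Set (Set X), IsCrossCut C ∧ ¬ IsTrivial C :=
  main_countable X

end Pool.Agent.Results.MP_73a625_co.CountableCase
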